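import Pool.Agent.helper32.QS.Spec

set_option autoImplicit false

open scoped BigOperators commutatorElement

namespace QS

/-- commutator powers -/
theorem XC_comm {G : Type} [Group G] (x y z : G) (hz : ⁅x, y⁆ = z) (hzx : z * x = x * z) :
    ∀ n : ℕ, x ^ n * y = z ^ n * (y * x ^ n) := by
  have h1 : x * y = z * (y * x) := by
    rw [← hz, commutatorElement_def]; group
  have hc : Commute z x := hzx
  intro n
  induction n with
  | zero => simp
  | succ n ih =>
    have hcn : x ^ n * z = z * x ^ n := (hc.pow_right n).eq.symm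
    calc x ^ (n + 1) * y = x ^ n * (x * y) := by rw [pow_succ, mul_assoc]
      _ = x ^ n * (z * (y * x)) := by rw [h1]
      _ = (x ^ n * z) * (y * x) := by rw [mul_assoc]
      _ = z * (x ^ n * y) * x := by rw [hcn]; simp only [mul_assoc]
      _ = z * (z ^ n * (y * x ^ n)) * x := by rw [ih]
      _ = z ^ (n + 1) * (y * x ^ (n + 1)) := by
        rw [pow_succ' z, pow_succ x]; simp only [mul_assoc]

/-- the fixed field -/
theorem XC_field (k : Type) [Field k] [Finite k] (p : ℕ) (hp : p.Prime) (hp5 : 5 ≤ p)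
    (σ : RingAut k) (h1 : σ ≠ 1) (hσp : σ ^ p = 1) (lam : k) (hl1 : lam ≠ 1) (hlp : lam ^ p = 1)
    (hl : σ lam = lam) : 131072 ≤ Nat.card k := by
  classical
  haveI : Fact p.Prime := ⟨hp⟩
  have hord : orderOf σ = p := orderOf_eq_prime hσp h1
  haveI : Finite (RingAut k) :=
    Finite.of_injective (fun f : k ≃+* k => (f : k → k)) DFunLike.coe_injective
  letI : Fintype (Subgroup.zpowers σ) := Fintype.ofFinite _
  set F := FixedPoints.subfield (Subgroup.zpowers σ) k with hF
  have hfin : Module.finrank F k = p := by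
    rw [hF, FixedPoints.finrank_eq_card, ← Nat.card_eq_fintype_card, Nat.card_zpowers, hord]
  have hlF : lam ∈ F := by
    rintro ⟨g, hg⟩
    obtain ⟨n, rfl⟩ := Subgroup.mem_zpowers_iff.1 hg
    change (σ ^ n) • lam = lam
    have hmem : σ ∈ MulAction.stabilizer (RingAut k) lam := by
      rw [MulAction.mem_stabilizer_iff, RingAut.smul_def, hl]
    exact (MulAction.mem_stabilizer_iff).1 (Subgroup.zpow_mem _ hmem n)
  haveI : Finite F := Subtype.finite
  have hcard : Nat.card k = Nat.card F ^ p := by
    have h := Module.natCard_eq_pow_finrank (K := F) (V := k)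
    rwa [hfin] at h
  set l : F := ⟨lam, hlF⟩ with hldef
  have hlFp : l ^ p = 1 := Subtype.ext (by simpa [hldef] using hlp)
  have hl1' : l ≠ 1 := fun h => hl1 (by simpa [hldef] using congrArg Subtype.val h)
  have hl0 : l ≠ 0 := by
    intro h
    rw [h, zero_pow hp.ne_zero] at hlFp
    exact zero_ne_one hlFp
  have hdvd : p ∣ Nat.card F - 1 := by
    rw [← Nat.card_units]
    have ho : orderOf (Units.mk0 l hl0) = p := by
      apply orderOf_eq_prime
      · ext; simp [hlFp]
      · intro h
        exact hl1' (by simpa using congrArg Units.val h)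
    rw [← ho]
    exact orderOf_dvd_natCard _
  have hF2 : 1 < Nat.card F := Finite.one_lt_card
  set q := Nat.card F with hq
  obtain ⟨c, hc⟩ := hdvd
  have hc0 : 0 < c := by
    rcases Nat.eq_zero_or_pos c with h | h
    · rw [h] at hc; omega
    · exact h
  rw [hcard]
  rcases Nat.lt_or_ge 5 p with h6 | h5
  · have h7 : 7 ≤ p := by
      rcases Nat.lt_or_ge 6 p with h | h
      · omega
      · have : p = 6 := by omega
        rw [this] at hp
        norm_num at hp
    have hq8 : 8 ≤ q := by
      have h9 : p * 1 ≤ p * c := Nat.mul_le_mul_left p hc0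
      omega
    calc 131072 ≤ 8 ^ 7 := by norm_num
      _ ≤ 8 ^ p := Nat.pow_le_pow_right (by norm_num) h7
      _ ≤ q ^ p := Nat.pow_le_pow_left hq8 p
  · have hp' : p = 5 := by omega
    have hq6 : q ≠ 6 := by
      intro h6
      letI : Fintype F := Fintype.ofFinite F
      have hpp := FiniteField.isPrimePow_card F
      rw [← Nat.card_eq_fintype_card, ← hq, h6] at hpp
      obtain ⟨r, s, hr, hs, hrs⟩ := (isPrimePow_nat_iff 6).1 hpp
      have h2 : 2 ∣ r := Nat.prime_two.dvd_of_dvd_pow (by rw [hrs]; norm_num : 2 ∣ r ^ s)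
      have h3 : 3 ∣ r := Nat.prime_three.dvd_of_dvd_pow (by rw [hrs]; norm_num : 3 ∣ r ^ s)
      have e2 : 2 = r := (Nat.prime_dvd_prime_iff_eq Nat.prime_two hr).1 h2
      have e3 : 3 = r := (Nat.prime_dvd_prime_iff_eq Nat.prime_three hr).1 h3
      omega
    have hq11 : 11 ≤ q := by
      rw [hp'] at hc
      rcases Nat.lt_or_ge c 2 with h | h
      · have : c = 1 := by omega
        rw [this] at hc
        omega
      · omega
    rw [hp']
    calc 131072 ≤ 11 ^ 5 := by norm_num
      _ ≤ q ^ 5 := Nat.pow_le_pow_left hq11 5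

theorem XC : XC_stmt := by
  intro k U H _ _ _ _ _ _ _ _ hS p hp hp5 x y hh hz hx
  obtain ⟨hxp, hyp, hz1, hzx, hzy⟩ := hh
  obtain ⟨lam, hlam⟩ := hz
  obtain ⟨σ, hσ⟩ := hS.semi x
  haveI := hS.nt
  obtain ⟨u0, hu0⟩ := exists_ne (0 : U)
  set z := ⁅x, y⁆ with hzdef
  -- σ ≠ 1
  have h1 : (σ : RingAut k) ≠ 1 := by
    intro h
    apply hx
    intro c u
    have := hσ c u
    rw [h] at this
    exact this
  -- powers
  have hpow : ∀ (n : ℕ) (c : k) (u : U), x ^ n • (c • u) = (((σ : RingAut k) ^ n) c) • (x ^ n • u) := by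
    intro n
    induction n with
    | zero => intro c u; simp
    | succ n ih =>
      intro c u
      rw [pow_succ', mul_smul, ih, hσ, ← mul_smul, ← pow_succ', pow_succ' (σ : RingAut k)]
      rfl
  have hinj : ∀ a b : k, ∀ u : U, u ≠ 0 → a • u = b • u → a = b := fun a b u hu h =>
    smul_left_injective k hu h
  have hσp : (σ : RingAut k) ^ p = 1 := by
    apply RingEquiv.ext
    intro c
    have h := hpow p c u0
    rw [hxp, one_smul, one_smul] at h
    exact (hinj _ _ u0 hu0 h).symm
  have hx0 : x • u0 ≠ 0 := by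
    intro h
    exact hu0 ((smul_eq_zero_iff_eq x).1 h)
  have hl : σ (lam : k) = (lam : k) := by
    apply hinj _ _ (x • u0) hx0
    rw [← hσ, ← hlam u0, ← hlam (x • u0), ← mul_smul, ← mul_smul, hzx]
  have hl1 : (lam : k) ≠ 1 := by
    intro h
    apply hz1
    apply hS.faith
    intro v
    rw [hlam v, h, one_smul]
  have hzp : z ^ p = 1 := by
    have h := XC_comm x y z hzdef.symm hzx p
    rw [hxp, one_mul, mul_one] at h
    exact (mul_eq_right.1 h.symm)
  have hlp : (lam : k) ^ p = 1 := by
    have hzn : ∀ (n : ℕ) (u : U), z ^ n • u = ((lam : k) ^ n) • u := by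
      intro n
      induction n with
      | zero => intro u; simp
      | succ n ih =>
        intro u
        rw [pow_succ, mul_smul, hlam, ih, ← mul_smul, pow_succ]
    have h := hzn p u0
    rw [hzp, one_smul] at h
    have h' : (1 : k) • u0 = ((lam : k) ^ p) • u0 := by rw [one_smul]; exact h
    exact (hinj _ _ u0 hu0 h').symm
  exact XC_field k p hp hp5 σ h1 hσp lam hl1 hlp hl

end QS
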